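import Mathlib
import Pool.Agent.Q286.SP.Ext

/-!
# Completion of Dirichlet series by large primes, I: the fixed point

`a` is a summable sequence (with weights `d^{1/lam}`): the coefficients, without the one of `1`, of a prescribed
Dirichlet series.  The nonlinear map of `Pool.Agent.H469R10.HO` is enlarged by the dilations by `d`.
-/

set_option autoImplicit false

open Finset MeasureTheory

namespace Pool.Agent.Q286.SA

open Pool.Agent.H469R10.HO Pool.Agent.H469R10.HO.Hyp Pool.Agent.Q286.SP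

noncomputable def rd (lam : ℝ) (d : ℕ) : ℝ := (d : ℝ) ^ (1 / lam)

noncomputable def YD (c lam : ℝ) (m : ℕ) (d : ℕ) (v : ℕ → ℝ) (j : ℕ) : ℝ :=
  ∑' n, v n * TX m (rd lam d * uu c lam n) j

/-- the additional term -/
noncomputable def PsA (c lam : ℝ) (B : ℕ → Finset ℕ) (m : ℕ) (a b : ℕ → ℝ) (j : ℕ) : ℝ :=
  ∑' d, a d * YD c lam m d (vv c lam B b) j

noncomputable def EA (lam : ℝ) (a : ℕ → ℝ) : ℝ := ∑' d, |a d| * rd lam d

variable {c lam e κ CJ CH : ℝ} {B : ℕ → Finset ℕ} {m : ℕ}

lemma rd_nonneg (d : ℕ) : 0 ≤ rd lam d := by unfold rd; positivity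

lemma rd_one_le (hlam : 0 < lam) {d : ℕ} (hd : 1 ≤ d) : 1 ≤ rd lam d := by
  unfold rd
  apply Real.one_le_rpow
  · exact_mod_cast hd
  · positivity

lemma YD_term (d : ℕ) {v : ℕ → ℝ} (hv : Summable fun n => |v n|) (j : ℕ) :
    Summable fun n => v n * TX m (rd lam d * uu c lam n) j := by
  refine Summable.of_norm_bounded (hv.mul_right 4) fun n => ?_
  rw [Real.norm_eq_abs, abs_mul]
  exact mul_le_mul_of_nonneg_left (TX_abs _ _ _) (abs_nonneg _)

lemma YD_abs (d : ℕ) {v : ℕ → ℝ} (hv : Summable fun n => |v n|) (j : ℕ) :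
    |YD c lam m d v j| ≤ (∑' n, |v n|) * 4 := by
  unfold YD
  rw [← tsum_mul_right, ← Real.norm_eq_abs]
  refine tsum_of_norm_bounded (f := fun n => v n * TX m (rd lam d * uu c lam n) j) (hv.mul_right 4).hasSum fun n => ?_
  rw [Real.norm_eq_abs, abs_mul]
  exact mul_le_mul_of_nonneg_left (TX_abs _ _ _) (abs_nonneg _)

lemma YD_sub (d : ℕ) {v v' : ℕ → ℝ} (hv : Summable fun n => |v n|) (hv' : Summable fun n => |v' n|) (j : ℕ) :
    YD c lam m d v j - YD c lam m d v' j = YD c lam m d (fun n => v n - v' n) j := by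
  unfold YD
  rw [← (YD_term d hv j).tsum_sub (YD_term d hv' j)]
  exact tsum_congr fun n => by ring

lemma aY_summable {a v : ℕ → ℝ} (ha : Summable fun d => |a d|) (hv : Summable fun n => |v n|) (j : ℕ) :
    Summable fun d => a d * YD c lam m d v j := by
  refine Summable.of_norm_bounded (ha.mul_right ((∑' n, |v n|) * 4)) fun d => ?_
  rw [Real.norm_eq_abs, abs_mul]
  exact mul_le_mul_of_nonneg_left (YD_abs d hv j) (abs_nonneg _)

lemma PsA_sub {a b b' : ℕ → ℝ} (ha : Summable fun d => |a d|) (hv : Summable fun n => |vv c lam B b n|)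
    (hv' : Summable fun n => |vv c lam B b' n|) (j : ℕ) :
    PsA c lam B m a b j - PsA c lam B m a b' j =
      ∑' d, a d * YD c lam m d (fun n => vv c lam B b n - vv c lam B b' n) j := by
  unfold PsA
  rw [← (aY_summable ha hv j).tsum_sub (aY_summable ha hv' j)]
  refine tsum_congr fun d => ?_
  rw [← YD_sub d hv hv' j]
  ring

/-- finite combinations -/
lemma comb_fin {W : ℕ → ℝ} (hW : ∀ j, 0 ≤ W j) (S : Finset ℕ) (a r : ℕ → ℝ) (hr : ∀ d ∈ S, a d ≠ 0 → 0 < r d)
    (y : ℕ → ℕ → ℝ) {K : ℝ} (J : ℕ)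
    (hy : ∀ d ∈ S, a d ≠ 0 → ∑ j ∈ range J, W j * (y d j) ^ 2 ≤ K * r d ^ 2) :
    ∑ j ∈ range J, W j * (∑ d ∈ S, a d * y d j) ^ 2 ≤ K * (∑ d ∈ S, |a d| * r d) ^ 2 := by
  classical
  obtain ⟨S', hS'⟩ : ∃ S' : Finset ℕ, S' = S.filter (fun d => a d ≠ 0) := ⟨_, rfl⟩
  have hm : ∀ d ∈ S', d ∈ S ∧ a d ≠ 0 := fun d hd => by rw [hS', mem_filter] at hd; exact hd
  have e1 : ∀ j, ∑ d ∈ S, a d * y d j = ∑ d ∈ S', a d * y d j := by
    intro j
    rw [hS', sum_filter]
    apply sum_congr rfl
    intro d _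
    by_cases h : a d = 0
    · rw [h]; simp
    · rw [if_pos h]
  have e2 : ∑ d ∈ S, |a d| * r d = ∑ d ∈ S', |a d| * r d := by
    rw [hS', sum_filter]
    apply sum_congr rfl
    intro d _
    by_cases h : a d = 0
    · rw [h]; simp
    · rw [if_pos h]
  rw [e2]
  simp_rw [e1]
  have h1 : ∀ j, (∑ d ∈ S', a d * y d j) ^ 2 ≤ (∑ d ∈ S', |a d| * r d) * ∑ d ∈ S', |a d| / r d * (y d j) ^ 2 := by
    intro j
    refine sum_sq_le_sum_mul_sum_of_sq_le_mul _ (fun d hd => ?_) (fun d hd => ?_) (fun d hd => ?_)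
    · have := (hr d (hm d hd).1 (hm d hd).2).le
      positivity
    · have := (hr d (hm d hd).1 (hm d hd).2).le
      positivity
    · have := (hr d (hm d hd).1 (hm d hd).2).ne'
      apply le_of_eq
      rw [mul_pow, ← sq_abs (a d)]
      field_simp
  have hE : 0 ≤ ∑ d ∈ S', |a d| * r d := sum_nonneg fun d hd => by
    have := (hr d (hm d hd).1 (hm d hd).2).le
    positivity
  calc ∑ j ∈ range J, W j * (∑ d ∈ S', a d * y d j) ^ 2
      ≤ ∑ j ∈ range J, W j * ((∑ d ∈ S', |a d| * r d) * ∑ d ∈ S', |a d| / r d * (y d j) ^ 2) :=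
        sum_le_sum fun j _ => mul_le_mul_of_nonneg_left (h1 j) (hW j)
    _ = (∑ d ∈ S', |a d| * r d) * ∑ d ∈ S', |a d| / r d * ∑ j ∈ range J, W j * (y d j) ^ 2 := by
        rw [mul_sum]
        simp_rw [mul_sum]
        rw [sum_comm]
        apply sum_congr rfl
        intro d _
        apply sum_congr rfl
        intro j _
        ring
    _ ≤ (∑ d ∈ S', |a d| * r d) * ∑ d ∈ S', |a d| / r d * (K * r d ^ 2) := by
        apply mul_le_mul_of_nonneg_left _ hE
        apply sum_le_sum
        intro d hd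
        have := (hr d (hm d hd).1 (hm d hd).2).le
        exact mul_le_mul_of_nonneg_left (hy d (hm d hd).1 (hm d hd).2) (by positivity)
    _ = K * (∑ d ∈ S', |a d| * r d) ^ 2 := by
        have : ∑ d ∈ S', |a d| / r d * (K * r d ^ 2) = K * ∑ d ∈ S', |a d| * r d := by
          rw [mul_sum]
          apply sum_congr rfl
          intro d hd
          have := (hr d (hm d hd).1 (hm d hd).2).ne'
          field_simp
        rw [this]
        ring

section

variable (h : Hyp c lam e κ CJ CH B m)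
include h

lemma YD_bound {d : ℕ} (hd : 1 ≤ rd lam d) {v : ℕ → ℝ} (hv : Summable fun n => |v n|) {q : ℝ}
    (hq : ∀ S : Finset ℕ, QQ (WW c) S (jj c lam) v ≤ q) (J : ℕ) :
    ∑ j ∈ range J, WW c j * (YD c lam m d v j) ^ 2 ≤ 600 * (CJ * (720 + 2 * κ)) * q * rd lam d ^ 2 := by
  have hCJ := h.hCJ
  have hκ := h.hκ
  have hsum : ∀ j, HasSum (fun n => v n * TX m (rd lam d * uu c lam n) j) (YD c lam m d v j) := fun j =>
    (YD_term d hv j).hasSum
  have ht : Filter.Tendsto (fun S : Finset ℕ => ∑ j ∈ range J, WW c j * (∑ n ∈ S, v n * TX m (rd lam d * uu c lam n) j) ^ 2)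
      Filter.atTop (nhds (∑ j ∈ range J, WW c j * (YD c lam m d v j) ^ 2)) :=
    tendsto_finsetSum _ fun j _ => ((hsum j).pow 2).const_mul _
  refine le_of_tendsto' ht fun S => ?_
  have hr0 : 0 ≤ rd lam d := by linarith
  have h1 := TX_sum h S (fun n => rd lam d * uu c lam n) v (fun n => mul_nonneg hr0 (uu_nonneg h.hc.le n)) J
  have h2 := QQ_dil h.hc h.hc1 hd S (uu c lam) v (fun n => uu_nonneg h.hc.le n)
  have h3 : QQ (WW c) S (fun n => cell (uu c lam n)) v ≤ q := hq S
  calc _ ≤ CJ * (720 + 2 * κ) * QQ (WW c) S (fun n => cell (rd lam d * uu c lam n)) v := h1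
    _ ≤ CJ * (720 + 2 * κ) * (600 * rd lam d ^ 2 * q) := by
        apply mul_le_mul_of_nonneg_left _ (by positivity)
        exact h2.trans (mul_le_mul_of_nonneg_left h3 (by positivity))
    _ = _ := by ring

lemma PsA_bound {a v : ℕ → ℝ} (ha : Summable fun d => |a d|) (haE : Summable fun d => |a d| * rd lam d)
    (har : ∀ d, a d ≠ 0 → 1 ≤ rd lam d) (hv : Summable fun n => |v n|) {q : ℝ} (hq0 : 0 ≤ q)
    (hq : ∀ S : Finset ℕ, QQ (WW c) S (jj c lam) v ≤ q) (J : ℕ) :
    ∑ j ∈ range J, WW c j * (∑' d, a d * YD c lam m d v j) ^ 2 ≤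
      600 * (CJ * (720 + 2 * κ)) * q * EA lam a ^ 2 := by
  have hCJ := h.hCJ
  have hκ := h.hκ
  have hW := WW_pos h.hc h.hc1
  have ht : Filter.Tendsto (fun S : Finset ℕ => ∑ j ∈ range J, WW c j * (∑ d ∈ S, a d * YD c lam m d v j) ^ 2)
      Filter.atTop (nhds (∑ j ∈ range J, WW c j * (∑' d, a d * YD c lam m d v j) ^ 2)) :=
    tendsto_finsetSum _ fun j _ => ((aY_summable ha hv j).hasSum.pow 2).const_mul _
  refine le_of_tendsto' ht fun S => ?_
  refine (comb_fin (fun j => (hW j).le) S a (rd lam) (fun d _ hd => by linarith [har d hd]) (fun d => YD c lam m d v) J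
    (fun d _ hd => YD_bound h (har d hd) hv hq J)).trans ?_
  apply mul_le_mul_of_nonneg_left _ (by positivity)
  apply pow_le_pow_left₀ (sum_nonneg fun d _ => mul_nonneg (abs_nonneg _) (rd_nonneg d))
  exact haE.sum_le_tsum S (fun d _ => mul_nonneg (abs_nonneg _) (rd_nonneg d))

omit h in
lemma EA_nonneg (a : ℕ → ℝ) : 0 ≤ EA lam a := tsum_nonneg fun d => mul_nonneg (abs_nonneg _) (rd_nonneg d)

lemma QQ_v0 (S : Finset ℕ) : QQ (WW c) S (jj c lam) (vv c lam B (fun _ => 0)) ≤ WW c 0 := by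
  have hW := WW_pos h.hc h.hc1
  have hv : ∀ n, vv c lam B (fun _ => 0) n = if n = 1 then 1 else 0 := by
    intro n
    unfold vv
    rw [alp_zero]
    split_ifs with h1 h2
    · omega
    · rfl
    · rfl
    · rfl
  have hj1 : jj c lam 1 = 0 := by
    unfold jj cell
    rw [Pool.Agent.H54R3.T469O.uu_one]
    rw [Nat.floor_eq_zero]
    have := Real.pi_gt_three
    have h5 : 2 / Real.pi * c ≤ 1 * c := by
      apply mul_le_mul_of_nonneg_right _ h.hc.le
      rw [div_le_one (by linarith)]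
      linarith
    have := h.hc1
    linarith
  unfold QQ
  have hin : ∀ y, ∑ n ∈ S.filter (fun n => jj c lam n = y), |vv c lam B (fun _ => 0) n| ≤ if y = 0 then 1 else 0 := by
    intro y
    calc ∑ n ∈ S.filter (fun n => jj c lam n = y), |vv c lam B (fun _ => 0) n|
        = ∑ n ∈ S.filter (fun n => jj c lam n = y), (if n = 1 then 1 else 0) := by
          apply sum_congr rfl
          intro n _
          rw [hv]
          split_ifs <;> simp
      _ ≤ _ := by
          rw [sum_ite_eq']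
          split_ifs with h1 h2
          · exact le_rfl
          · rw [mem_filter, hj1] at h1
            omega
          · norm_num
          · exact le_rfl
  calc ∑ y ∈ S.image (jj c lam), WW c y * (∑ n ∈ S.filter (fun n => jj c lam n = y), |vv c lam B (fun _ => 0) n|) ^ 2
      ≤ ∑ y ∈ S.image (jj c lam), (if y = 0 then WW c 0 else 0) := by
        apply sum_le_sum
        intro y _
        have h1 := pow_le_pow_left₀ (sum_nonneg fun i _ => abs_nonneg _) (hin y) 2
        have h2 := mul_le_mul_of_nonneg_left h1 (hW y).le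
        refine h2.trans ?_
        split_ifs with h3
        · subst h3; simp
        · simp
    _ ≤ WW c 0 := by
        rw [sum_ite_eq']
        split_ifs
        · exact le_rfl
        · exact (hW 0).le

/-- **Existence of the fixed point** with prescribed coefficients -/
theorem fixedA (hQ : TaskQ) {ρ : ℝ} (hρ0 : 0 < ρ) (hρ : 9 * ρ ^ 2 ≤ 1)
    (hK : 2 * (CJ * (800 * e ^ 2 + 2 * κ)) + 2 * (CJ * (720 + 2 * κ)) * (CH * 81 * ρ ^ 2) ≤ 1 / 4)
    (a : ℕ → ℝ) (ha : Summable fun d => |a d|) (haE : Summable fun d => |a d| * rd lam d)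
    (har : ∀ d, a d ≠ 0 → 1 ≤ rd lam d)
    (hE1 : 600 * (CJ * (720 + 2 * κ)) * WW c 0 * EA lam a ^ 2 ≤ (ρ / 8) ^ 2)
    (hE2 : 600 * (CJ * (720 + 2 * κ)) * (2 + 2 * (CH * 81 * ρ ^ 2)) * EA lam a ^ 2 ≤ 1 / 16)
    (s : ℕ → ℝ) (hs : ∀ J : ℕ, ∑ j ∈ range J, WW c j * s j ^ 2 ≤ (ρ / 8) ^ 2) :
    ∃ b : ℕ → ℝ, (∀ J : ℕ, ∑ j ∈ range J, WW c j * b j ^ 2 ≤ ρ ^ 2) ∧
      (Summable fun n => |alp c lam B b n|) ∧
      ∀ j, b j = s j + ∑' n, alp c lam B b n * TT c lam m n j + PsA c lam B m a b j := by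
  have hW := WW_pos h.hc h.hc1
  suffices key : ∃ b : ℕ → ℝ, (∀ J : ℕ, ∑ j ∈ range J, WW c j * b j ^ 2 ≤ ρ ^ 2) ∧
      ∀ j, b j = s j + ∑' n, alp c lam B b n * TT c lam m n j + PsA c lam B m a b j by
    obtain ⟨b, hb1, hb2⟩ := key
    exact ⟨b, hb1, h.summable_alp hρ0 hρ hb1, hb2⟩
  refine hQ (WW c) hW (fun b j => s j + ∑' n, alp c lam B b n * TT c lam m n j + PsA c lam B m a b j) ρ (3 / 4) hρ0
    (by norm_num) (by norm_num) ?_ ?_
  · intro J
    have e1 : ∀ j, ∑' n, alp c lam B (fun _ => 0) n * TT c lam m n j = 0 := by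
      intro j
      have : ∀ n, alp c lam B (fun _ => 0) n * TT c lam m n j = 0 := by
        intro n
        rw [alp_zero]
        split_ifs with h1
        · subst h1
          unfold TT
          simp
          intro hp1
          exact absurd hp1 Nat.not_prime_one
        · simp
      simp_rw [this]
      exact tsum_zero
    have hz : ∀ J : ℕ, ∑ j ∈ range J, WW c j * (fun _ : ℕ => (0:ℝ)) j ^ 2 ≤ ρ ^ 2 := by
      intro J; simp; positivity
    have hs0 := summable_vv h (h.summable_alp hρ0 hρ hz)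
    have hPsi : ∑ j ∈ range J, WW c j * (PsA c lam B m a (fun _ => 0) j) ^ 2 ≤ (ρ / 8) ^ 2 :=
      (PsA_bound h ha haE har hs0 (hW 0).le (QQ_v0 h) J).trans hE1
    simp_rw [e1, add_zero]
    calc ∑ j ∈ range J, WW c j * (s j + PsA c lam B m a (fun _ => 0) j) ^ 2
        ≤ ∑ j ∈ range J, (2 * (WW c j * s j ^ 2) + 2 * (WW c j * (PsA c lam B m a (fun _ => 0) j) ^ 2)) := by
          apply sum_le_sum
          intro j _
          have := mul_nonneg (hW j).le (sq_nonneg (s j - PsA c lam B m a (fun _ => 0) j))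
          nlinarith
      _ ≤ 2 * (ρ / 8) ^ 2 + 2 * (ρ / 8) ^ 2 := by
          rw [sum_add_distrib, ← mul_sum, ← mul_sum]
          have := hs J
          linarith
      _ = ((1 - 3 / 4) * ρ) ^ 2 := by ring
  · intro b b' hb hb' D hD0 hD J
    have hsb := h.summable_alp hρ0 hρ hb
    have hsb' := h.summable_alp hρ0 hρ hb'
    rcases hD0.eq_or_lt with hD00 | hDpos
    · have hbb : b = b' := by
        funext j
        have h1 := hD (j + 1)
        rw [← hD00] at h1
        have h2 : WW c j * (b j - b' j) ^ 2 ≤ ∑ i ∈ range (j + 1), WW c i * (b i - b' i) ^ 2 :=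
          single_le_sum (f := fun i => WW c i * (b i - b' i) ^ 2) (fun i _ => mul_nonneg (hW i).le (sq_nonneg _))
            (mem_range.2 (Nat.lt_succ_self j))
        have h3 : (b j - b' j) ^ 2 ≤ 0 := by
          have := hW j
          nlinarith
        have h4 : b j - b' j = 0 := by nlinarith
        linarith
      subst hbb
      simp
      positivity
    -- the old part
    have e1 : ∀ j, ∑' n, alp c lam B b n * TT c lam m n j - ∑' n, alp c lam B b' n * TT c lam m n j =
        ∑' n, (alp c lam B b n - alp c lam B b' n) * TT c lam m n j := by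
      intro j
      rw [← (h.summable_term hsb j).tsum_sub (h.summable_term hsb' j)]
      exact tsum_congr fun n => by ring
    have hsum : ∀ j, HasSum (fun n => (alp c lam B b n - alp c lam B b' n) * TT c lam m n j)
        (∑' n, (alp c lam B b n - alp c lam B b' n) * TT c lam m n j) := by
      intro j
      apply Summable.hasSum
      have := (h.summable_term hsb j).sub (h.summable_term hsb' j)
      refine this.congr fun n => by ring
    have ht : Filter.Tendsto (fun S : Finset ℕ => ∑ j ∈ range J, WW c j * (∑ n ∈ S, (alp c lam B b n - alp c lam B b' n) * TT c lam m n j) ^ 2)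
        Filter.atTop (nhds (∑ j ∈ range J, WW c j * (∑' n, (alp c lam B b n - alp c lam B b' n) * TT c lam m n j) ^ 2)) :=
      tendsto_finsetSum _ fun j _ => ((hsum j).pow 2).const_mul _
    have hold : ∑ j ∈ range J, WW c j * (∑' n, (alp c lam B b n - alp c lam B b' n) * TT c lam m n j) ^ 2 ≤ 1 / 4 * D ^ 2 := by
      refine le_of_tendsto' ht fun S => ?_
      refine (h.fin_lip hρ0 hD0 hρ hb hb' hD S J).trans ?_
      exact mul_le_mul_of_nonneg_right hK (sq_nonneg _)
    -- the new part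
    have hvs := summable_vv h hsb
    have hvs' := summable_vv h hsb'
    have hvd : Summable fun n => |vv c lam B b n - vv c lam B b' n| := by
      refine Summable.of_nonneg_of_le (fun _ => abs_nonneg _) (fun n => ?_) (hvs.add hvs')
      have := abs_sub (vv c lam B b n) (vv c lam B b' n)
      exact this
    have hCH := h.hCH
    have hnew : ∑ j ∈ range J, WW c j * (PsA c lam B m a b j - PsA c lam B m a b' j) ^ 2 ≤ 1 / 16 * D ^ 2 := by
      simp_rw [PsA_sub ha hvs hvs']
      have h1 := PsA_bound h ha haE har hvd (q := (2 + 2 * (CH * 81 * ρ ^ 2)) * D ^ 2) (by positivity)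
        (fun S => QQ_diff h hρ0 hDpos hρ hb hb' hD S) J
      refine h1.trans ?_
      have h2 := mul_le_mul_of_nonneg_right hE2 (sq_nonneg D)
      calc _ = 600 * (CJ * (720 + 2 * κ)) * (2 + 2 * (CH * 81 * ρ ^ 2)) * EA lam a ^ 2 * D ^ 2 := by ring
        _ ≤ _ := h2
    have e3 : ∀ j, (s j + ∑' n, alp c lam B b n * TT c lam m n j + PsA c lam B m a b j) -
        (s j + ∑' n, alp c lam B b' n * TT c lam m n j + PsA c lam B m a b' j) =
        (∑' n, (alp c lam B b n - alp c lam B b' n) * TT c lam m n j) +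
          (PsA c lam B m a b j - PsA c lam B m a b' j) := by
      intro j
      rw [← e1]
      ring
    simp_rw [e3]
    calc ∑ j ∈ range J, WW c j * ((∑' n, (alp c lam B b n - alp c lam B b' n) * TT c lam m n j) +
          (PsA c lam B m a b j - PsA c lam B m a b' j)) ^ 2
        ≤ ∑ j ∈ range J, (3 / 2 * (WW c j * (∑' n, (alp c lam B b n - alp c lam B b' n) * TT c lam m n j) ^ 2) +
          3 * (WW c j * (PsA c lam B m a b j - PsA c lam B m a b' j) ^ 2)) := by
          apply sum_le_sum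
          intro j _
          have := mul_nonneg (hW j).le (sq_nonneg ((∑' n, (alp c lam B b n - alp c lam B b' n) * TT c lam m n j) -
            2 * (PsA c lam B m a b j - PsA c lam B m a b' j)))
          nlinarith
      _ ≤ 3 / 2 * (1 / 4 * D ^ 2) + 3 * (1 / 16 * D ^ 2) := by
          rw [sum_add_distrib, ← mul_sum, ← mul_sum]
          linarith
      _ = (3 / 4 * D) ^ 2 := by ring

end

end Pool.Agent.Q286.SA
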