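import Mathlib
import Pool.Agent.Q286.SA.Fix
import Pool.Agent.Q286.SP.Rel

/-!
# Completion of Dirichlet series by large primes, II: the boundary relation
-/

set_option autoImplicit false

open Finset MeasureTheory

namespace Pool.Agent.Q286.SA

open Pool.Agent.H469R10.HO Pool.Agent.H469R10.HO.Hyp Pool.Agent.Q286.SP
open Pool.Agent.H54R3.T469O (PP_add PP_sub PP_const_mul PP_cos chi_zero chi_one DD_abs PP_hasSum DD_const_mul
  jj_of_near uu_one alp_eq_zero)

variable {c lam : ℝ} {B : ℕ → Finset ℕ} {b : ℕ → ℝ} {m : ℕ}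

/-- Dirichlet convolution -/
noncomputable def cv (a v : ℕ → ℝ) (n : ℕ) : ℝ := ∑ x ∈ n.divisorsAntidiagonal, a x.1 * v x.2

lemma cv_zero (a v : ℕ → ℝ) : cv a v 0 = 0 := by
  unfold cv
  simp

lemma cv_hasSum {a v : ℕ → ℝ} (ha : Summable fun n => |a n|) (hv : Summable fun n => |v n|) (a0 : a 0 = 0)
    (v0 : v 0 = 0) {g : ℕ → ℝ} {C : ℝ} (hg : ∀ n, |g n| ≤ C) :
    HasSum (fun n => cv a v n * g n) (∑' d, a d * ∑' k, v k * g (d * k)) := by
  obtain ⟨F, hF⟩ : ∃ F : ℕ × ℕ → ℝ, F = fun x => a x.1 * v x.2 * g (x.1 * x.2) := ⟨_, rfl⟩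
  have hs : Summable F := by
    have h1 : Summable fun x : ℕ × ℕ => |a x.1| * |v x.2| :=
      Summable.mul_of_nonneg ha hv (fun _ => abs_nonneg _) (fun _ => abs_nonneg _)
    refine Summable.of_norm_bounded (h1.mul_right C) fun x => ?_
    rw [hF]
    simp only
    rw [Real.norm_eq_abs, abs_mul, abs_mul]
    exact mul_le_mul_of_nonneg_left (hg _) (by positivity)
  have htot : ∑' x, F x = ∑' d, a d * ∑' k, v k * g (d * k) := by
    rw [hs.tsum_prod]
    apply tsum_congr
    intro d
    rw [← tsum_mul_left]
    apply tsum_congr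
    intro k
    rw [hF]
    ring
  have h2 := hs.hasSum.tsum_fiberwise (fun x : ℕ × ℕ => x.1 * x.2)
  rw [htot] at h2
  refine h2.congr_fun ?_
  intro n
  rcases Nat.eq_zero_or_pos n with h0 | h0
  · subst h0
    rw [cv_zero, zero_mul]
    symm
    have : ∀ x : ((fun x : ℕ × ℕ => x.1 * x.2) ⁻¹' {0}), F x = 0 := by
      rintro ⟨x, hx⟩
      have hx' : x.1 * x.2 = 0 := hx
      rw [hF]
      simp only
      rcases mul_eq_zero.1 hx' with h | h
      · rw [h, a0]; ring
      · rw [h, v0]; ring
    simp_rw [this]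
    exact tsum_zero
  · have e : ((fun x : ℕ × ℕ => x.1 * x.2) ⁻¹' {n}) = (n.divisorsAntidiagonal : Set (ℕ × ℕ)) := by
      ext x
      simp only [Set.mem_preimage, Set.mem_singleton_iff, Finset.mem_coe, Nat.mem_divisorsAntidiagonal]
      constructor
      · intro h
        exact ⟨h, by omega⟩
      · intro h
        exact h.1
    rw [e, Finset.tsum_subtype']
    unfold cv
    rw [sum_mul]
    apply sum_congr rfl
    intro x hx
    rw [hF]
    simp only
    rw [(Nat.mem_divisorsAntidiagonal.1 hx).1]

lemma cv_summable {a v : ℕ → ℝ} (ha : Summable fun n => |a n|) (hv : Summable fun n => |v n|) (a0 : a 0 = 0)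
    (v0 : v 0 = 0) : Summable fun n => |cv a v n| := by
  have h1 := (cv_hasSum (a := fun n => |a n|) (v := fun n => |v n|) (by simpa using ha) (by simpa using hv)
    (by simp [a0]) (by simp [v0]) (g := fun _ => 1) (C := 1) (by simp)).summable
  refine Summable.of_nonneg_of_le (fun _ => abs_nonneg _) (fun n => ?_) h1
  rw [mul_one]
  unfold cv
  refine (abs_sum_le_sum_abs _ _).trans (le_of_eq ?_)
  exact sum_congr rfl fun x _ => abs_mul _ _

/-- the operator whose kernel gives the relation -/
noncomputable def TF (m : ℕ) (f : ℝ → ℝ) (j : ℕ) : ℝ := - PP f j + PP (DD m f) j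

lemma TF_add (hm1 : 1 ≤ m) {f g : ℝ → ℝ} (hf : Continuous f) (hg : Continuous g) {C D : ℝ} (hfB : ∀ x, |f x| ≤ C)
    (hgB : ∀ x, |g x| ≤ D) (j : ℕ) : TF m (fun x => f x + g x) j = TF m f j + TF m g j := by
  unfold TF
  have c1 := Pool.Agent.H54R3.T469O.DD_cont hm1 hf hfB
  have c2 := Pool.Agent.H54R3.T469O.DD_cont hm1 hg hgB
  have e : DD m (fun x => f x + g x) = fun x => DD m f x + DD m g x := by
    funext x
    unfold DD
    ring
  rw [e, PP_add hf hg, PP_add c1 c2]
  ring

lemma uu_mul (d k : ℕ) : uu c lam (d * k) = rd lam d * uu c lam k := by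
  unfold uu rd
  push_cast
  rw [Real.mul_rpow (by positivity) (by positivity)]
  ring

/-- **The boundary relation** -/
theorem relA (hlam : 1 ≤ lam) (hm : 2 ≤ m)
    (hB : ∀ j, ∀ p ∈ B j, 1 ≤ j ∧ p.Prime ∧ |uu c lam p - xx j| ≤ 1 / 2) (hne : ∀ j, 1 ≤ j → (B j).Nonempty)
    (hsum : Summable (fun n => |alp c lam B b n|)) {a : ℕ → ℝ} (ha : Summable fun d => |a d|) (a0 : a 0 = 0)
    (a1 : a 1 = 0)
    (hfix : ∀ j, b j = ss c m j + ∑' n, alp c lam B b n * TT c lam m n j + PsA c lam B m a b j)
    (α : ℕ → ℝ) (hα : ∀ n, α n = if n = 0 then b 0 - 1 else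
      cv (fun d => if d = 1 then 1 else a d) (vv c lam B b) n) {x : ℝ} (hx : 0 < x) :
    ∑' n, α n * Real.cos (uu c lam n * x) = x ^ (2 * m) * ∑' n, α n * Real.cos (uu c lam n / x) := by
  classical
  have hm1 : 1 ≤ m := by omega
  obtain ⟨a', had⟩ : ∃ a' : ℕ → ℝ, a' = fun n => if n = 1 then 0 else alp c lam B b n := ⟨_, rfl⟩
  have ha' : Summable (fun n => |a' n|) := by
    refine Summable.of_nonneg_of_le (fun _ => abs_nonneg _) (fun n => ?_) hsum
    rw [had]
    simp only
    split_ifs
    · rw [abs_zero]; exact abs_nonneg _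
    · exact le_rfl
  obtain ⟨v, hvd⟩ : ∃ v : ℕ → ℝ, v = vv c lam B b := ⟨_, rfl⟩
  rw [← hvd] at hα
  have hv : Summable fun n => |v n| := by
    refine Summable.of_nonneg_of_le (fun _ => abs_nonneg _) (fun n => ?_) hsum
    rw [hvd]
    unfold vv
    split_ifs
    · rw [abs_zero]; exact abs_nonneg _
    · exact le_rfl
  have v0 : v 0 = 0 := by rw [hvd]; unfold vv; simp
  obtain ⟨A, hA⟩ : ∃ A : ℕ → ℝ, A = fun d => if d = 1 then 1 else a d := ⟨_, rfl⟩
  rw [← hA] at hα
  have A0 : A 0 = 0 := by rw [hA]; simp [a0]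
  have hAs : Summable fun d => |A d| := by
    refine ha.congr_cofinite ?_
    rw [Filter.EventuallyEq, Filter.eventually_cofinite]
    refine (Set.finite_singleton 1).subset ?_
    intro n hn
    by_contra h0
    apply hn
    have h0' : n ≠ 1 := h0
    rw [hA]
    simp only [if_neg h0']
  obtain ⟨G, hG⟩ : ∃ G : ℝ → ℝ, G = fun x => ∑' n, a' n * Real.cos (uu c lam n * x) := ⟨_, rfl⟩
  obtain ⟨V, hV⟩ : ∃ V : ℝ → ℝ, V = fun x => ∑' n, v n * Real.cos (uu c lam n * x) := ⟨_, rfl⟩
  obtain ⟨H, hH⟩ : ∃ H : ℝ → ℝ, H = fun x => ∑' n, cv A v n * Real.cos (uu c lam n * x) := ⟨_, rfl⟩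
  obtain ⟨hGc, hGB, hGP⟩ := series_PP hm1 ha' (w := uu c lam)
  rw [← hG] at hGc hGP
  have hGB : ∀ x, |G x| ≤ ∑' n, |a' n| := fun x => by rw [hG]; exact hGB x
  obtain ⟨hVc, hVB, hVP⟩ := series_PP hm1 hv (w := uu c lam)
  rw [← hV] at hVc hVP
  have hVB : ∀ x, |V x| ≤ ∑' n, |v n| := fun x => by rw [hV]; exact hVB x
  have hcs := cv_summable hAs hv A0 v0
  obtain ⟨hHc, hHB, hHP⟩ := series_PP hm1 hcs (w := uu c lam)
  rw [← hH] at hHc hHP
  have hHB : ∀ x, |H x| ≤ ∑' n, |cv A v n| := fun x => by rw [hH]; exact hHB x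
  have hs0c : Continuous (s0 c) := by unfold s0; fun_prop
  have hs0B : ∀ x, |s0 c x| ≤ 2 := by
    intro x
    unfold s0
    rw [abs_le]
    constructor <;> linarith [Real.neg_one_le_cos (c * x), Real.cos_le_one (c * x)]
  -- `T H = T V + PsA`
  have hTH : ∀ j, TF m H j = TF m V j + PsA c lam B m a b j := by
    intro j
    have h1 : TF m H j = ∑' d, A d * YD c lam m d v j := by
      have h2 := cv_hasSum hAs hv A0 v0 (g := fun n => TX m (uu c lam n) j) (C := 4) (fun n => TX_abs _ _ _)
      have h3 := h2.unique (hHP j)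
      unfold TF
      rw [← h3]
      apply tsum_congr
      intro d
      congr 1
      unfold YD
      apply tsum_congr
      intro k
      rw [uu_mul]
    have h4 : TF m V j = YD c lam m 1 v j := by
      unfold TF YD
      rw [← (hVP j).tsum_eq]
      apply tsum_congr
      intro k
      have : rd lam 1 = 1 := by unfold rd; simp
      rw [this, one_mul]
    rw [h1, h4]
    unfold PsA
    rw [← hvd]
    have h5 := (aY_summable (c := c) (lam := lam) (m := m) ha hv j).hasSum.add
      (hasSum_ite_eq 1 (YD c lam m 1 v j))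
    have h6 : (fun d => A d * YD c lam m d v j) = fun d => a d * YD c lam m d v j +
        (if d = 1 then YD c lam m 1 v j else 0) := by
      funext d
      rw [hA]
      simp only
      by_cases hd : d = 1
      · subst hd
        rw [if_pos rfl, if_pos rfl, a1]
        ring
      · rw [if_neg hd, if_neg hd, add_zero]
    rw [h6, h5.tsum_eq]
    ring
  -- the fixed point equation
  have hfp : ∀ j, TF m (s0 c) j + TF m G j + PsA c lam B m a b j = 0 := by
    intro j
    have H4 : HasSum (fun n => alp c lam B b n * TT c lam m n j) (- PP G j + PP (DD m G) j + b j) := by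
      have h1 := (hGP j).add (hasSum_block (c := c) (b := b) hlam hB hne j)
      have h2 : (fun n => alp c lam B b n * TT c lam m n j) = fun n =>
          a' n * TX m (uu c lam n) j +
            (if n = 0 ∨ n.Prime then (if jj c lam n = j then alp c lam B b n else 0) else 0) := by
        funext n
        by_cases h0 : n = 0 ∨ n.Prime
        · have hn1 : n ≠ 1 := by
            rintro rfl
            rcases h0 with h0 | h0
            · omega
            · exact Nat.not_prime_one h0
          have han : a' n = alp c lam B b n := by rw [had]; exact if_neg hn1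
          unfold TT TX
          rw [if_pos h0, if_pos h0, han, PP_sub (by fun_prop) (by fun_prop), PP_cos]
          split_ifs <;> ring
        · by_cases h3 : Squarefree n ∧ 2 ≤ n.primeFactors.card
          · have hn1 : n ≠ 1 := by
              rintro rfl
              simp at h3
            have han : a' n = alp c lam B b n := by rw [had]; exact if_neg hn1
            unfold TT TX
            rw [if_neg h0, if_neg h0, if_pos h3, han]
            ring
          · by_cases hn1 : n = 1
            · have han : a' n = 0 := by rw [had]; exact if_pos hn1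
              unfold TT
              rw [if_neg h0, if_neg h0, if_neg h3, han]
              ring
            · have h4 := alp_eq_zero (c := c) (lam := lam) (B := B) (b := b) h0 h3 hn1
              have han : a' n = 0 := by rw [had]; exact (if_neg hn1).trans h4
              rw [if_neg h0, h4, han]
              ring
      rw [h2]
      exact h1
    have h5 := hfix j
    rw [H4.tsum_eq] at h5
    unfold ss at h5
    unfold TF
    linarith
  -- `V = G + s0 + (1 - b 0)`
  have hVG : ∀ x, V x = (s0 c x + G x) + (1 - b 0) := by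
    intro x
    have h3 : HasSum (fun n => a' n * Real.cos (uu c lam n * x) +
        ((if n = 0 then -b 0 else 0) + (if n = 1 then Real.cos (c * x) else 0)))
        (G x + (-b 0 + Real.cos (c * x))) := by
      refine HasSum.add ?_ ((hasSum_ite_eq 0 (-b 0)).add (hasSum_ite_eq 1 (Real.cos (c * x))))
      rw [hG]
      apply Summable.hasSum
      refine Summable.of_norm_bounded ha' fun n => ?_
      rw [Real.norm_eq_abs, abs_mul]
      calc |a' n| * |Real.cos (uu c lam n * x)| ≤ |a' n| * 1 :=
            mul_le_mul_of_nonneg_left (Real.abs_cos_le_one _) (abs_nonneg _)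
        _ = |a' n| := mul_one _
    have h4 : (fun n => v n * Real.cos (uu c lam n * x)) = fun n =>
        a' n * Real.cos (uu c lam n * x) +
        ((if n = 0 then -b 0 else 0) + (if n = 1 then Real.cos (c * x) else 0)) := by
      funext n
      rw [had, hvd]
      unfold vv
      by_cases hn0 : n = 0
      · subst hn0
        simp only [if_true, zero_ne_one, if_false]
        have h5 : alp c lam B b 0 = b 0 := by unfold alp; rw [if_pos rfl]
        rw [h5, Pool.Agent.H54R3.T469O.uu_zero hlam, zero_mul]
        simp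
      by_cases hn1 : n = 1
      · subst hn1
        have h5 : alp c lam B b 1 = 1 := by unfold alp; simp
        simp only [one_ne_zero, if_false, if_true]
        rw [h5, uu_one]
        ring
      · simp only [hn0, hn1, if_false]
        ring
    rw [hV]
    simp only
    rw [h4, h3.tsum_eq]
    simp only [s0]
    ring
  obtain ⟨h, hh⟩ : ∃ h : ℝ → ℝ, h = fun x => H x + (b 0 - 1) := ⟨_, rfl⟩
  have hhc : Continuous h := by rw [hh]; exact hHc.add continuous_const
  have hhB : ∀ x, |h x| ≤ ∑' n, |cv A v n| + |b 0 - 1| := fun x => by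
    rw [hh]
    exact (abs_add_le _ _).trans (add_le_add (hHB x) le_rfl)
  have hPP : ∀ j, PP h j = PP (DD m h) j := by
    intro j
    have t1 : TF m h j = TF m H j + TF m (fun _ => b 0 - 1) j := by
      rw [hh]
      exact TF_add hm1 hHc continuous_const hHB (fun _ => le_rfl) j
    have t2 : TF m V j = (TF m (s0 c) j + TF m G j) + TF m (fun _ => 1 - b 0) j := by
      have e : V = fun x => (s0 c x + G x) + (1 - b 0) := funext hVG
      have cG : Continuous (fun x => s0 c x + G x) := hs0c.add hGc
      rw [e, TF_add hm1 cG continuous_const (C := 2 + ∑' n, |a' n|)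
        (fun x => (abs_add_le _ _).trans (add_le_add (hs0B x) (hGB x))) (fun _ => le_rfl) j,
        TF_add hm1 hs0c hGc hs0B hGB j]
    have t3 : TF m (fun _ => 1 - b 0) j + TF m (fun _ => b 0 - 1) j = 0 := by
      have h1 := TF_add hm1 (f := fun _ => 1 - b 0) (g := fun _ => b 0 - 1) continuous_const continuous_const
        (fun _ => le_rfl) (fun _ => le_rfl) j
      rw [← h1]
      have e : (fun _ : ℝ => (1 - b 0) + (b 0 - 1)) = fun _ => (0 : ℝ) * 1 := by
        funext x
        ring
      rw [e]
      unfold TF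
      have e2 : DD m (fun _ : ℝ => (0 : ℝ) * 1) = fun x => (0 : ℝ) * DD m (fun _ => 1) x := by
        funext x
        unfold DD
        ring
      rw [e2, PP_const_mul, PP_const_mul]
      ring
    have t4 := hTH j
    have t5 := hfp j
    have t6 : TF m h j = 0 := by linarith
    unfold TF at t6
    linarith
  have hrel := rel_of_PP hhc hhB hm1 hPP hx
  have hser : ∀ x, ∑' n, α n * Real.cos (uu c lam n * x) = h x := by
    intro x
    have h1 : HasSum (fun n => cv A v n * Real.cos (uu c lam n * x)) (H x) := by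
      rw [hH]
      apply Summable.hasSum
      refine Summable.of_norm_bounded hcs fun n => ?_
      rw [Real.norm_eq_abs, abs_mul]
      calc |cv A v n| * |Real.cos (uu c lam n * x)| ≤ |cv A v n| * 1 :=
            mul_le_mul_of_nonneg_left (Real.abs_cos_le_one _) (abs_nonneg _)
        _ = |cv A v n| := mul_one _
    have h2 := h1.add (hasSum_ite_eq 0 (b 0 - 1))
    have e1 : (fun n => α n * Real.cos (uu c lam n * x)) = fun n => cv A v n * Real.cos (uu c lam n * x) +
        (if n = 0 then b 0 - 1 else 0) := by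
      funext n
      rw [hα n]
      by_cases hn0 : n = 0
      · subst hn0
        rw [if_pos rfl, if_pos rfl, Pool.Agent.H54R3.T469O.uu_zero hlam, zero_mul, Real.cos_zero, cv_zero]
        ring
      · rw [if_neg hn0, if_neg hn0, add_zero]
    rw [e1, h2.tsum_eq, hh]
  rw [hser x]
  have h8 : ∀ n, uu c lam n / x = uu c lam n * x⁻¹ := fun n => div_eq_mul_inv _ _
  simp_rw [h8]
  rw [hser x⁻¹]
  exact hrel

end Pool.Agent.Q286.SA
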