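import Mathlib
import Pool.Agent.Q286.SA.Rel
import Pool.Agent.Q286.SP.Core

/-!
# Completion of Dirichlet series by large primes, III: the core
-/

set_option autoImplicit false

open Finset

namespace Pool.Agent.Q286.SA

open Pool.Agent.H469R10.HO Pool.Agent.H469R10.HO.Hyp Pool.Agent.Q286.SP

/-- **Core with a prescribed factor.** -/
theorem coreA : ∃ m₀ : ℕ, 2 ≤ m₀ ∧ ∀ m : ℕ, m₀ ≤ m → ∀ lam : ℝ, 2 * m + 1 < lam →
    ∃ c₀ ε₀ : ℝ, 0 < c₀ ∧ 0 < ε₀ ∧ ∀ c : ℝ, 0 < c → c ≤ c₀ → ∀ (a : ℕ → ℝ), a 0 = 0 → a 1 = 0 →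
    (Summable fun d => |a d| * rd lam d) → WW c 0 * EA lam a ^ 2 ≤ ε₀ →
    ∃ β v α : ℕ → ℝ,
      (∀ p : ℕ, p.Prime → |β p| ≤ (p : ℝ) ^ (-(1 / 2 + m / lam))) ∧
      (∀ p : ℕ, uu c lam p ≤ 1 → β p = 0) ∧
      v 0 = 0 ∧
      (∀ n : ℕ, 1 ≤ n → v n = if Squarefree n then ∏ p ∈ n.primeFactors, β p else 0) ∧
      Summable (fun n => |v n|) ∧
      (∀ n : ℕ, 1 ≤ n → α n = cv (fun d => if d = 1 then 1 else a d) v n) ∧
      Summable (fun n => |α n|) ∧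
      (∀ x : ℝ, 0 < x → ∑' n, α n * Real.cos (uu c lam n * x) =
        x ^ (2 * m) * ∑' n, α n * Real.cos (uu c lam n / x)) := by
  classical
  obtain ⟨m₁, lam₀, hlam8, hH⟩ := exists_hyp hoheisel
  refine ⟨max (max m₁ 2) ⌈lam₀⌉₊, (le_max_right _ _).trans (le_max_left _ _), fun m hm lam hlm => ?_⟩
  have hm1 : m₁ ≤ m := ((le_max_left _ _).trans (le_max_left _ _)).trans hm
  have hm2 : 2 ≤ m := ((le_max_right _ _).trans (le_max_left _ _)).trans hm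
  have hm3 : lam₀ ≤ m := Nat.ceil_le.mp ((le_max_right _ _).trans hm)
  have hmR : (2:ℝ) ≤ m := by exact_mod_cast hm2
  have hlam : lam₀ ≤ lam := by linarith
  have hlam0 : 0 < lam := by linarith
  obtain ⟨e, κ, CJ, CH, η, ρ, c₁, he0, he, hη, hρ0, hρ9, hfin, hc₁, hyp⟩ := hH m hm1 lam hlam
  obtain ⟨cN, hcN, hN⟩ := Pool.Agent.H5R3.T469N.taskN m hm2 ((ρ / 8) ^ 2) (by positivity)
  obtain ⟨cP, hcP, hPc⟩ := Pool.Agent.Y532.SC.primeCoef (m := m) (by omega) hlm hη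
  -- the constants are nonnegative
  obtain ⟨hCJ, hCH, hκ⟩ : 0 ≤ CJ ∧ 0 ≤ CH ∧ 0 ≤ κ := by
    obtain ⟨B, h, -⟩ := hyp c₁ hc₁ le_rfl
    exact ⟨h.hCJ, h.hCH, h.hκ⟩
  obtain ⟨K1, hK1⟩ : ∃ K1 : ℝ, K1 = 600 * (CJ * (720 + 2 * κ)) := ⟨_, rfl⟩
  obtain ⟨K2, hK2⟩ : ∃ K2 : ℝ, K2 = 2 + 2 * (CH * 81 * ρ ^ 2) := ⟨_, rfl⟩
  have hK10 : 0 ≤ K1 := by rw [hK1]; positivity
  have hK20 : 0 < K2 := by rw [hK2]; positivity
  obtain ⟨ε₀, hε₀⟩ : ∃ ε₀ : ℝ, ε₀ = min ((ρ / 8) ^ 2 / (K1 + 1)) (1 / (16 * ((K1 + 1) * K2))) := ⟨_, rfl⟩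
  have hε₀pos : 0 < ε₀ := by
    rw [hε₀]
    apply lt_min <;> positivity
  refine ⟨min c₁ (min cN cP), ε₀, lt_min hc₁ (lt_min hcN hcP), hε₀pos, fun c hc hcc a a0 a1 haE hE => ?_⟩
  obtain ⟨B, h, hB2⟩ := hyp c hc (hcc.trans (min_le_left _ _))
  have hcN' : c ≤ cN := hcc.trans ((min_le_right _ _).trans (min_le_left _ _))
  have hcP' : c ≤ cP := hcc.trans ((min_le_right _ _).trans (min_le_right _ _))
  have hBh : ∀ j, ∀ p ∈ B j, 1 ≤ j ∧ p.Prime ∧ |uu c lam p - xx j| ≤ 1 / 2 :=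
    fun j p hp => ⟨(h.hB j p hp).1, (h.hB j p hp).2.1, (h.hB j p hp).2.2.trans he⟩
  have hsm : ∀ p : ℕ, uu c lam p ≤ 1 → ∀ j, p ∉ B j := by
    intro p hp j hpj
    have := uu_block (hBh j p hpj).1 (hBh j p hpj).2.2
    linarith
  have har : ∀ d, a d ≠ 0 → 1 ≤ rd lam d := by
    intro d hd
    apply rd_one_le hlam0
    rcases Nat.eq_zero_or_pos d with h0 | h0
    · rw [h0] at hd
      exact absurd a0 hd
    · exact h0
  have ha : Summable fun d => |a d| := by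
    refine Summable.of_nonneg_of_le (fun _ => abs_nonneg _) (fun d => ?_) haE
    by_cases hd : a d = 0
    · rw [hd, abs_zero, zero_mul]
    · exact le_mul_of_one_le_right (abs_nonneg _) (har d hd)
  have hW0 : 1 ≤ WW c 0 := by
    unfold WW
    have hc10 := h.hc1
    have h1 : 1 ≤ Real.log ((1 + ((0 : ℕ) : ℝ)) / c) := by
      rw [Real.le_log_iff_exp_le (by positivity), Nat.cast_zero, add_zero]
      have := Real.exp_one_lt_d9
      rw [le_div_iff₀ hc]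
      nlinarith
    have h2 : 1 ≤ Real.log ((1 + ((0 : ℕ) : ℝ)) / c) ^ 4 := one_le_pow₀ h1
    rw [Nat.cast_zero] at h2 ⊢
    linarith
  have hEE : EA lam a ^ 2 ≤ WW c 0 * EA lam a ^ 2 := le_mul_of_one_le_left (sq_nonneg _) hW0
  have hE1 : 600 * (CJ * (720 + 2 * κ)) * WW c 0 * EA lam a ^ 2 ≤ (ρ / 8) ^ 2 := by
    rw [← hK1]
    have h1 : WW c 0 * EA lam a ^ 2 ≤ (ρ / 8) ^ 2 / (K1 + 1) := hE.trans (by rw [hε₀]; exact min_le_left _ _)
    rw [le_div_iff₀ (by positivity)] at h1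
    have h2 : 0 ≤ WW c 0 * EA lam a ^ 2 := by positivity
    nlinarith
  have hE2 : 600 * (CJ * (720 + 2 * κ)) * (2 + 2 * (CH * 81 * ρ ^ 2)) * EA lam a ^ 2 ≤ 1 / 16 := by
    rw [← hK1, ← hK2]
    have h1 : EA lam a ^ 2 ≤ 1 / (16 * ((K1 + 1) * K2)) := (hEE.trans hE).trans (by rw [hε₀]; exact min_le_right _ _)
    rw [le_div_iff₀ (by positivity)] at h1
    have h2 : 0 ≤ K2 * EA lam a ^ 2 := by positivity
    nlinarith
  obtain ⟨b, hb1, hb2, hb3⟩ := fixedA h Pool.Agent.H180R3.Q469.taskQ hρ0 hρ9 hfin a ha haE har hE1 hE2 (ss c m)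
    (hN c hc hcN')
  have hv : Summable fun n => |vv c lam B b n| := summable_vv h hb2
  have v0 : vv c lam B b 0 = 0 := by unfold vv; simp
  obtain ⟨A, hA⟩ : ∃ A : ℕ → ℝ, A = fun d => if d = 1 then 1 else a d := ⟨_, rfl⟩
  have A0 : A 0 = 0 := by rw [hA]; simp [a0]
  have hAs : Summable fun d => |A d| := by
    refine ha.congr_cofinite ?_
    rw [Filter.EventuallyEq, Filter.eventually_cofinite]
    refine (Set.finite_singleton 1).subset ?_
    intro n hn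
    by_contra h0
    apply hn
    have h0' : n ≠ 1 := h0
    rw [hA]
    simp only [if_neg h0']
  refine ⟨bet c lam B b, vv c lam B b, fun n => if n = 0 then b 0 - 1 else cv A (vv c lam B b) n, ?_, ?_, v0, ?_, hv,
    ?_, ?_, ?_⟩
  · intro p hp
    refine hPc c hc hcP' B hBh hB2 b (fun j => ?_) p hp
    have h1 := hb1 (j + 1)
    rw [Finset.sum_range_succ] at h1
    have h2 : 0 ≤ ∑ i ∈ range j, WW c i * b i ^ 2 :=
      Finset.sum_nonneg fun i _ => mul_nonneg (WW_pos h.hc h.hc1 i).le (sq_nonneg _)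
    have h3 : ρ ^ 2 ≤ 1 := by nlinarith [sq_nonneg ρ]
    linarith
  · intro p hu
    unfold bet
    rw [if_neg (hsm p hu _)]
  · intro n hn
    unfold vv
    rw [if_neg (by omega)]
    unfold alp
    rw [if_neg (by omega)]
  · intro n hn
    simp only []
    rw [if_neg (by omega), hA]
  · refine (cv_summable hAs hv A0 v0).congr_cofinite ?_
    rw [Filter.EventuallyEq, Filter.eventually_cofinite]
    refine (Set.finite_singleton 0).subset ?_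
    intro n hn
    by_contra h0
    apply hn
    have h0' : n ≠ 0 := h0
    simp only [if_neg h0']
  · intro x hx
    exact relA h.hlam hm2 hBh h.hBne hb2 ha a0 a1 hb3 _ (fun n => by rw [hA]) hx

end Pool.Agent.Q286.SA
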