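import Pool.Agent.Y532.SC.Deg
import Pool.Agent.Q286.SZ.Van
import Pool.Agent.Q286.SA.Core

/-!
# Completion of Dirichlet series by large primes, IV: the entire functions
-/

set_option autoImplicit false
set_option linter.unusedVariables false

open Finset Complex

namespace Pool.Agent.Q286.SA

open Pool.Agent.H469R10.HO Pool.Agent.Y532.SC
open Pool.Agent.W168.Wrap (mu kap aa ff FF FF_diff FF_series FF_growth FF_completed FF_strip uu_pos uu_zero)

/-- everything about one completed series: `F(s) = ∑ A(n) n^{-s} * ∏ (1 + g(p) p^{-s})` -/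
structure Comp (lam nu Q ε : ℝ) (A : ℕ → ℝ) (g : ℕ → ℝ) (F : ℂ → ℂ) : Prop where
  eps : ε = 1 ∨ ε = -1
  bdd : ∀ p : ℕ, p.Prime → |g p| ≤ 1
  diff : Differentiable ℂ F
  growth : ∃ C : ℝ, ∀ s : ℂ, ‖F s‖ ≤ C * Real.exp (‖s‖ ^ (3 : ℝ))
  series : ∀ s : ℂ, 1 < s.re → F s = LSeries (fun n => (A n : ℂ)) s * LSeries (co g) s
  fe : ∀ s : ℂ, (∀ n : ℕ, (lam : ℂ) * s + nu ≠ -(n : ℂ)) →
      (∀ n : ℕ, (lam : ℂ) * (1 - starRingEnd ℂ s) + nu ≠ -(n : ℂ)) →
      F s * (Q : ℂ) ^ s * Gamma ((lam : ℂ) * s + nu) =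
        ε * starRingEnd ℂ (F (1 - starRingEnd ℂ s) * (Q : ℂ) ^ (1 - starRingEnd ℂ s) *
          Gamma ((lam : ℂ) * (1 - starRingEnd ℂ s) + nu))

/-- summability of the prescribed factor -/
lemma A_summable {σ : ℝ} {A : ℕ → ℝ} (h : Summable fun n : ℕ => |A n| * (n : ℝ) ^ (-σ)) {s : ℂ} (hs : σ ≤ s.re) :
    LSeriesSummable (fun n => (A n : ℂ)) s := by
  refine Summable.of_norm_bounded h fun n => ?_
  rcases Nat.eq_zero_or_pos n with h0 | h0
  · subst h0
    rw [LSeries.term_zero, norm_zero]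
    positivity
  · rw [LSeries.norm_term_eq, if_neg (by omega), norm_real, Real.norm_eq_abs, div_eq_mul_inv, ← Real.rpow_neg (by positivity)]
    apply mul_le_mul_of_nonneg_left _ (abs_nonneg _)
    apply Real.rpow_le_rpow_of_exponent_le
    · exact_mod_cast h0
    · linarith

/-- from a boundary relation to the entire function -/
theorem comp_of_core {m : ℕ} (hm1 : 1 ≤ m) {lam c : ℝ} (hlam1 : 1 ≤ lam) (hc : 0 < c) {β v α A : ℕ → ℝ}
    (hβ : ∀ p : ℕ, p.Prime → |β p| ≤ (p : ℝ) ^ (-(1 / 2 + m / lam)))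
    (hv : ∀ n : ℕ, 1 ≤ n → v n = if Squarefree n then ∏ p ∈ n.primeFactors, β p else 0)
    (hα : ∀ n : ℕ, 1 ≤ n → α n = ∑ x ∈ n.divisorsAntidiagonal, (A x.1 * (x.1 : ℝ) ^ (-kap lam m)) * v x.2)
    (hA : Summable fun n : ℕ => |A n| * (n : ℝ) ^ (-(1 : ℝ)))
    (hsum : Summable (fun n => |α n|))
    (hrel : ∀ x : ℝ, 0 < x → ∑' n, α n * Real.cos (uu c lam n * x) =
        x ^ (2 * m) * ∑' n, α n * Real.cos (uu c lam n / x)) :
    ∃ F : ℂ → ℂ, Comp lam (m + 1 - lam / 2) (Real.exp (-(lam * Real.log c))) ((-1) ^ (m + 1)) A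
      (fun p => β p * (p : ℝ) ^ (kap lam m)) F ∧
      ∀ k : ℕ, 1 ≤ k → k + 1 ≤ m → F (1 / 2 + (m - 2 * k) / lam) = 0 := by
  have hmR : (0:ℝ) ≤ m := Nat.cast_nonneg m
  have hl : 0 < lam := by linarith
  have hF := Pool.Agent.H144R3.T469F.taskF
  have hG := Pool.Agent.H853R3.Bol.taskG
  have hrel2 := hG m hm1 α (uu c lam) hsum (uu_zero hl) (fun n hn => uu_pos hc hn) 1 (Or.inl rfl)
    (fun x hx => by rw [one_mul]; exact hrel x hx)
  obtain ⟨ε, hε⟩ : ∃ ε : ℝ, ε = (-1) ^ (m + 1) * 1 := ⟨_, rfl⟩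
  have hε1 : ε = 1 ∨ ε = -1 := by
    rw [hε, mul_one]
    exact neg_one_pow_eq_or ℝ (m + 1)
  have hεε : ε * ε = 1 := by
    rcases hε1 with h | h <;> rw [h] <;> norm_num
  obtain ⟨Λ, hΛd, hΛfe, hΛc, hΛs, C, hΛg⟩ := hF c lam (2 * m + 2) hc hlam1 (by linarith)
    (fun n => α n * uu c lam n ^ (2 * m + 1))
    (by rw [uu_zero hl]; simp)
    (by
      refine Summable.of_nonneg_of_le (fun n => by
        apply mul_nonneg (abs_nonneg _)
        apply Real.rpow_nonneg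
        rcases Nat.eq_zero_or_pos n with h | h
        · rw [h, uu_zero hl]
        · exact (uu_pos hc h).le) (fun n => ?_) hsum
      rcases Nat.eq_zero_or_pos n with h | h
      · subst h
        rw [uu_zero hl]
        simp
      · have hu := uu_pos (lam := lam) hc h
        rw [abs_mul, abs_of_pos (pow_pos hu _), mul_assoc, ← Real.rpow_natCast,
          ← Real.rpow_add hu]
        have : ((2 * m + 1 : ℕ) : ℝ) + -((2 * (m : ℝ) + 2) - 1) = 0 := by push_cast; ring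
        rw [this, Real.rpow_zero, mul_one])
    ε hε1
    (by
      intro t ht
      have h1 := hrel2 t ht
      rw [hε]
      have h2 : t ^ (2 * (m : ℝ) + 2) = t ^ (2 * m + 2) := by
        rw [← Real.rpow_natCast]
        push_cast
        rfl
      rw [h2]
      exact h1)
  obtain ⟨σ₀, hσ₀⟩ : ∃ σ₀ : ℝ, σ₀ = (2 * m + 2 + |mu lam m|) / lam + 1 := ⟨_, rfl⟩
  have hmu : 0 ≤ |mu lam m| := abs_nonneg _
  have hσ₀1 : 1 ≤ σ₀ := by
    rw [hσ₀]
    have : 0 ≤ (2 * m + 2 + |mu lam m|) / lam := by positivity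
    linarith
  have hFser : ∀ s : ℂ, σ₀ < s.re → FF lam m c Λ s = LSeries (ff lam m α) s := by
    intro s hs
    refine (FF_series hc hl ?_).2
    apply hΛs
    have h1 : ((lam : ℂ) * s + mu lam m).re = lam * s.re + mu lam m := by
      simp
    rw [h1]
    rw [hσ₀] at hs
    have h2 : (2 * m + 2 + |mu lam m|) / lam < s.re := by linarith
    rw [div_lt_iff₀ hl] at h2
    have := neg_abs_le (mu lam m)
    linarith
  obtain ⟨g, hgd⟩ : ∃ g : ℕ → ℝ, g = fun p => β p * (p : ℝ) ^ (kap lam m) := ⟨_, rfl⟩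
  rw [← hgd]
  have hg1 : ∀ p : ℕ, p.Prime → |g p| ≤ 1 := by
    intro p hp
    have hp0 : (0 : ℝ) < p := by exact_mod_cast hp.pos
    rw [hgd]
    simp only
    rw [abs_mul, abs_of_pos (Real.rpow_pos_of_pos hp0 _)]
    calc |β p| * (p : ℝ) ^ kap lam m ≤ (p : ℝ) ^ (-kap lam m) * (p : ℝ) ^ kap lam m := by
          gcongr
          exact hβ p hp
      _ = 1 := by rw [← Real.rpow_add hp0]; simp
  have hAsum : ∀ s : ℂ, 1 < s.re → LSeriesSummable (fun n => (A n : ℂ)) s := fun s hs => A_summable hA hs.le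
  have hcoeff : ∀ s : ℂ, 1 < s.re → LSeries (ff lam m α) s = LSeries (fun n => (A n : ℂ)) s * LSeries (co g) s := by
    intro s hs
    rw [← LSeries_convolution' (hAsum s hs) (co_summable hg1 hs)]
    refine LSeries_congr (fun {n} hn => ?_) s
    have hn1 : 1 ≤ n := Nat.one_le_iff_ne_zero.2 hn
    rw [LSeries.convolution_def]
    unfold ff aa
    rw [hα n hn1, sum_mul]
    push_cast
    apply sum_congr rfl
    intro x hx
    obtain ⟨hx1, -⟩ := Nat.mem_divisorsAntidiagonal.1 hx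
    have hx2 : 1 ≤ x.1 := by
      rcases Nat.eq_zero_or_pos x.1 with h | h
      · rw [h, zero_mul] at hx1; omega
      · exact h
    have hx3 : 1 ≤ x.2 := by
      rcases Nat.eq_zero_or_pos x.2 with h | h
      · rw [h, mul_zero] at hx1; omega
      · exact h
    have e1 : co g x.2 = ((aa lam m v x.2 : ℝ) : ℂ) := by
      unfold co Pool.Agent.H902R3.I469.ff
      rw [fr_eq_aa (fun p hp => by rw [hgd]) hv hx3]
    have e2 : (n : ℝ) ^ kap lam m = (x.1 : ℝ) ^ kap lam m * (x.2 : ℝ) ^ kap lam m := by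
      rw [← hx1]
      push_cast
      rw [Real.mul_rpow (by positivity) (by positivity)]
    have e3 : (x.1 : ℝ) ^ (-kap lam m) * (x.1 : ℝ) ^ kap lam m = 1 := by
      have : (0 : ℝ) < x.1 := by exact_mod_cast hx2
      rw [← Real.rpow_add this]
      simp
    rw [e1]
    unfold aa
    rw [← ofReal_mul]
    norm_cast
    rw [e2]
    calc A x.1 * (x.1 : ℝ) ^ (-kap lam m) * v x.2 * ((x.1 : ℝ) ^ kap lam m * (x.2 : ℝ) ^ kap lam m)
        = A x.1 * (v x.2 * (x.2 : ℝ) ^ kap lam m) * ((x.1 : ℝ) ^ (-kap lam m) * (x.1 : ℝ) ^ kap lam m) := by ring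
      _ = _ := by rw [e3, mul_one]
  have hser : ∀ s : ℂ, 1 < s.re → FF lam m c Λ s = LSeries (fun n => (A n : ℂ)) s * LSeries (co g) s := by
    intro s hs
    have hU : IsPreconnected {z : ℂ | 1 < z.re} := (convex_halfSpace_re_gt 1).isPreconnected
    have hab : LSeries.abscissaOfAbsConv (co g) ≤ 1 := by
      apply LSeries.abscissaOfAbsConv_le_of_le_const
      exact ⟨1, fun n _ => co_bdd hg1 n⟩
    have hab2 : LSeries.abscissaOfAbsConv (fun n => (A n : ℂ)) ≤ 1 := by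
      apply LSeries.abscissaOfAbsConv_le_of_forall_lt_LSeriesSummable
      intro y hy
      apply hAsum
      rw [ofReal_re]
      exact_mod_cast hy
    have h1 : AnalyticOnNhd ℂ (FF lam m c Λ) {z : ℂ | 1 < z.re} := fun z _ =>
      (FF_diff hΛd).analyticAt z
    have h2 : AnalyticOnNhd ℂ (LSeries (co g)) {z : ℂ | 1 < z.re} := by
      apply (LSeries_analyticOnNhd (co g)).mono
      intro z hz
      refine lt_of_le_of_lt hab ?_
      exact_mod_cast hz
    have h2' : AnalyticOnNhd ℂ (LSeries (fun n => (A n : ℂ))) {z : ℂ | 1 < z.re} := by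
      apply (LSeries_analyticOnNhd _).mono
      intro z hz
      refine lt_of_le_of_lt hab2 ?_
      exact_mod_cast hz
    have h3 : FF lam m c Λ =ᶠ[nhds ((σ₀ + 1 : ℝ) : ℂ)]
        fun z => LSeries (fun n => (A n : ℂ)) z * LSeries (co g) z := by
      have ho : IsOpen {z : ℂ | σ₀ < z.re} := isOpen_lt continuous_const Complex.continuous_re
      have hm : ((σ₀ + 1 : ℝ) : ℂ) ∈ {z : ℂ | σ₀ < z.re} := by
        change σ₀ < ((σ₀ + 1 : ℝ) : ℂ).re
        rw [Complex.ofReal_re]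
        linarith
      filter_upwards [ho.mem_nhds hm] with z hz
      have hz' : σ₀ < z.re := hz
      rw [hFser z hz', hcoeff z (by linarith)]
    have h4 := h1.eqOn_of_preconnected_of_eventuallyEq (h2'.mul h2) hU (z₀ := ((σ₀ + 1 : ℝ) : ℂ)) (by
      change (1 : ℝ) < ((σ₀ + 1 : ℝ) : ℂ).re
      rw [Complex.ofReal_re]
      linarith) h3
    exact h4 hs
  have hmuv : mu lam m = m + 1 - lam / 2 := rfl
  have hmuc : (((m + 1 - lam / 2 : ℝ)) : ℂ) = (mu lam m : ℂ) := by rw [hmuv]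
  have hεm : ((-1 : ℝ)) ^ (m + 1) = ε := by rw [hε, mul_one]
  rw [hεm]
  refine ⟨FF lam m c Λ, ⟨hε1, hg1, FF_diff hΛd, FF_growth3 hl hΛg, hser, ?_⟩, ?_⟩
  swap
  · intro k hk hkm
    have h0 := Pool.Agent.Q286.SZ.van hc hlam1 hk hkm hsum (σ := 1) (by norm_num) (fun x hx => by rw [one_mul]; exact hrel x hx)
      hΛd hΛs
    have harg : (lam : ℂ) * (1 / 2 + (m - 2 * k) / lam) + mu lam m = 2 * m + 1 - 2 * k := by
      have hlc : (lam : ℂ) ≠ 0 := by exact_mod_cast hl.ne'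
      unfold mu
      push_cast
      field_simp
      ring
    unfold FF
    rw [harg, h0, zero_mul, mul_zero]
  intro s hs1 hs2
  rw [hmuc] at hs1 hs2 ⊢
  have g1 := FF_completed (m := m) (c := c) (Λ := Λ) (s := s) hs1
  have g2 := FF_completed (m := m) (c := c) (Λ := Λ) (s := 1 - starRingEnd ℂ s) hs2
  rw [g1, g2, map_mul, Complex.conj_ofReal, ← hΛc]
  have h3 : starRingEnd ℂ ((lam : ℂ) * (1 - starRingEnd ℂ s) + mu lam m) =
      (((2 * (m : ℝ) + 2 : ℝ)) : ℂ) - ((lam : ℂ) * s + mu lam m) := by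
    rw [map_add, map_mul, map_sub, map_one, Complex.conj_conj, Complex.conj_ofReal, Complex.conj_ofReal]
    unfold mu
    push_cast
    ring
  rw [h3, hΛfe]
  have h5 : (ε : ℂ) * ε = 1 := by exact_mod_cast hεε
  linear_combination (-((Real.exp (Real.log c * (mu lam m - 2 * m - 1)) : ℝ) : ℂ) *
    Λ ((lam : ℂ) * s + mu lam m)) * h5

/-- **Completion theorem.**  Every Dirichlet series `1 + ∑_{n ≥ 2} A(n) n^{-s}` with
`∑_{n ≥ 2} |A(n)| n^{-(1/2 + (m - 1)/lam)}` small against `(log Q)^{-2}` has a multiple by an Euler product over the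
primes `> Q` which is entire with functional equation. -/
theorem completion : ∃ m₀ : ℕ, 2 ≤ m₀ ∧ ∀ m : ℕ, m₀ ≤ m → ∀ lam : ℝ, 2 * m + 1 < lam →
    ∃ Q₀ ε₀ : ℝ, 1 ≤ Q₀ ∧ 0 < ε₀ ∧ ∀ Q : ℝ, Q₀ ≤ Q → ∀ A : ℕ → ℝ, A 1 = 1 →
      (Summable fun n : ℕ => |A n| * (n : ℝ) ^ (-(1 / 2 + (m - 1) / lam))) →
      (Real.log Q) ^ 4 * (∑' n : ℕ, if n ≤ 1 then 0 else |A n| * (n : ℝ) ^ (-(1 / 2 + (m - 1) / lam))) ^ 2 ≤ ε₀ →
      ∃ (g : ℕ → ℝ) (F : ℂ → ℂ), Comp lam (m + 1 - lam / 2) Q ((-1) ^ (m + 1)) A g F ∧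
        (∀ p : ℕ, (p : ℝ) ≤ Q → g p = 0) ∧
        ∀ k : ℕ, 1 ≤ k → k + 1 ≤ m → F (1 / 2 + (m - 2 * k) / lam) = 0 := by
  obtain ⟨m₀, hm₀2, hm₀⟩ := coreA
  refine ⟨m₀, hm₀2, fun m hm lam hlm => ?_⟩
  have hm1 : 1 ≤ m := by omega
  have hmR : (0:ℝ) ≤ m := Nat.cast_nonneg m
  have hl : 0 < lam := by linarith
  have hlam1 : 1 ≤ lam := by linarith
  obtain ⟨c₀, ε₀, hc₀, hε₀, hcore⟩ := hm₀ m hm lam hlm
  refine ⟨max 1 (c₀ ^ (-lam)), ε₀, le_max_left _ _, hε₀, fun Q hQ A A1 hAs hE => ?_⟩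
  have hQ1 : 1 ≤ Q := (le_max_left _ _).trans hQ
  have hQ0 : 0 < Q := by linarith
  obtain ⟨c, hcd⟩ : ∃ c : ℝ, c = Q ^ (-(1 / lam)) := ⟨_, rfl⟩
  have hc : 0 < c := by rw [hcd]; exact Real.rpow_pos_of_pos hQ0 _
  have hcc₀ : c ≤ c₀ := by
    rw [hcd]
    calc Q ^ (-(1 / lam)) ≤ (c₀ ^ (-lam)) ^ (-(1 / lam)) :=
          Real.rpow_le_rpow_of_nonpos (Real.rpow_pos_of_pos hc₀ _) ((le_max_right _ _).trans hQ) (by
            rw [neg_nonpos]; positivity)
      _ = c₀ := by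
          rw [← Real.rpow_mul hc₀.le]
          have : -lam * -(1 / lam) = 1 := by field_simp
          rw [this, Real.rpow_one]
  have hQc : Real.exp (-(lam * Real.log c)) = Q := by
    rw [hcd, Real.log_rpow hQ0]
    have : -(lam * (-(1 / lam) * Real.log Q)) = Real.log Q := by field_simp
    rw [this, Real.exp_log hQ0]
  have huu : ∀ p : ℕ, (p : ℝ) ≤ Q → uu c lam p ≤ 1 := by
    intro p hp
    unfold uu
    rw [hcd]
    calc Q ^ (-(1 / lam)) * (p : ℝ) ^ (1 / lam) ≤ Q ^ (-(1 / lam)) * Q ^ (1 / lam) := by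
          gcongr
      _ = 1 := by rw [← Real.rpow_add hQ0]; simp
  obtain ⟨a, had⟩ : ∃ a : ℕ → ℝ, a = fun n => if n ≤ 1 then 0 else A n * (n : ℝ) ^ (-kap lam m) := ⟨_, rfl⟩
  have a0 : a 0 = 0 := by rw [had]; simp
  have a1 : a 1 = 0 := by rw [had]; simp
  have hrd : ∀ n, |a n| * rd lam n = if n ≤ 1 then 0 else |A n| * (n : ℝ) ^ (-(1 / 2 + (m - 1) / lam)) := by
    intro n
    rw [had]
    simp only
    split_ifs with hn
    · rw [abs_zero, zero_mul]
    · have hn0 : (0 : ℝ) < n := by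
        have : 0 < n := by omega
        exact_mod_cast this
      rw [abs_mul, abs_of_pos (Real.rpow_pos_of_pos hn0 _), mul_assoc]
      congr 1
      unfold rd kap
      rw [← Real.rpow_add hn0]
      congr 1
      field_simp
      ring
  have hE' : EA lam a = ∑' n : ℕ, if n ≤ 1 then 0 else |A n| * (n : ℝ) ^ (-(1 / 2 + (m - 1) / lam)) := by
    unfold EA
    exact tsum_congr hrd
  have haE : Summable fun d => |a d| * rd lam d := by
    refine Summable.of_nonneg_of_le (fun d => mul_nonneg (abs_nonneg _) (rd_nonneg d)) (fun d => ?_) hAs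
    rw [hrd]
    split_ifs
    · positivity
    · exact le_rfl
  have hW : WW c 0 ≤ (Real.log Q) ^ 4 := by
    unfold WW
    have h1 : Real.log ((1 + ((0 : ℕ) : ℝ)) / c) = 1 / lam * Real.log Q := by
      rw [Nat.cast_zero, add_zero, hcd, Real.log_div one_ne_zero (by positivity), Real.log_rpow hQ0, Real.log_one]
      ring
    rw [h1]
    have h2 : 0 ≤ Real.log Q := Real.log_nonneg hQ1
    have h3 : 1 / lam * Real.log Q ≤ Real.log Q := by
      apply mul_le_of_le_one_left h2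
      rw [div_le_one hl]
      exact hlam1
    have h4 : (1 / lam * Real.log Q) ^ 4 ≤ (Real.log Q) ^ 4 := pow_le_pow_left₀ (by positivity) h3 4
    simpa using h4
  have hEE : WW c 0 * EA lam a ^ 2 ≤ ε₀ := by
    rw [hE']
    exact (mul_le_mul_of_nonneg_right hW (sq_nonneg _)).trans hE
  obtain ⟨β, v, α, hβ, hz, hv0, hv, hvs, hα, hsum, hrel⟩ := hcore c hc hcc₀ a a0 a1 haE hEE
  have hAs1 : Summable fun n : ℕ => |A n| * (n : ℝ) ^ (-(1 : ℝ)) := by
    refine Summable.of_nonneg_of_le (fun n => by positivity) (fun n => ?_) hAs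
    rcases Nat.eq_zero_or_pos n with h | h
    · subst h
      apply mul_le_mul_of_nonneg_left _ (abs_nonneg _)
      rw [Nat.cast_zero, Real.zero_rpow (by norm_num)]
      positivity
    · apply mul_le_mul_of_nonneg_left _ (abs_nonneg _)
      apply Real.rpow_le_rpow_of_exponent_le
      · exact_mod_cast h
      · have : (m - 1) / lam ≤ 1 / 2 := by
          rw [div_le_iff₀ hl]
          linarith
        linarith
  obtain ⟨F, hF, hz'⟩ := comp_of_core (A := A) hm1 hlam1 hc hβ hv (fun n hn => by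
      rw [hα n hn]
      unfold cv
      apply sum_congr rfl
      intro x hx
      congr 1
      obtain ⟨hx1, hx0⟩ := Nat.mem_divisorsAntidiagonal.1 hx
      have hx2 : x.1 ≠ 0 := by
        intro h
        rw [h, zero_mul] at hx1
        exact hx0 hx1.symm
      simp only
      by_cases h1 : x.1 = 1
      · rw [if_pos h1, h1, A1, Nat.cast_one, Real.one_rpow, mul_one]
      · rw [if_neg h1, had]
        simp only
        rw [if_neg (by omega)]) hAs1 hsum hrel
  rw [hQc] at hF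
  refine ⟨_, F, hF, ?_, hz'⟩
  intro p hpQ
  rw [hz p (huu p hpQ), zero_mul]

end Pool.Agent.Q286.SA
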