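import Pool.Agent.Q286.SA.Elt
import Pool.Agent.H902R3.PZ.W1

/-!
# Completely multiplicative prescribed factors
-/

set_option autoImplicit false

open Finset Complex
open scoped ArithmeticFunction.vonMangoldt

namespace Pool.Agent.Q286.SA

open Pool.Agent.Y532.SC

/-- the completely multiplicative function with the values `α p` at the primes -/
noncomputable def cm (α : ℕ → ℝ) : ℕ →*₀ ℝ where
  toFun n := if n = 0 then 0 else n.factorization.prod fun p k => α p ^ k
  map_zero' := by simp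
  map_one' := by simp
  map_mul' a b := by
    rcases Nat.eq_zero_or_pos a with ha | ha
    · simp [ha]
    rcases Nat.eq_zero_or_pos b with hb | hb
    · simp [hb]
    rw [if_neg (Nat.mul_pos ha hb).ne', if_neg ha.ne', if_neg hb.ne', Nat.factorization_mul ha.ne' hb.ne',
      Finsupp.prod_add_index']
    · intro p
      exact pow_zero _
    · intro p k l
      exact pow_add _ _ _

lemma cm_prime (α : ℕ → ℝ) {p : ℕ} (hp : p.Prime) : cm α p = α p := by
  change (if p = 0 then 0 else p.factorization.prod fun p k => α p ^ k) = α p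
  rw [if_neg hp.ne_zero, hp.factorization, Finsupp.prod_single_index]
  · exact pow_one _
  · exact pow_zero _

/-- absolute values with weights -/
noncomputable def hm (α : ℕ → ℝ) (σ : ℝ) : ℕ →*₀ ℝ where
  toFun n := |cm α n| * (n : ℝ) ^ (-σ)
  map_zero' := by rw [map_zero, abs_zero, zero_mul]
  map_one' := by rw [map_one, abs_one, Nat.cast_one, Real.one_rpow, mul_one]
  map_mul' a b := by
    rw [map_mul, abs_mul, Nat.cast_mul, Real.mul_rpow (by positivity) (by positivity)]
    ring

lemma hm_apply (α : ℕ → ℝ) (σ : ℝ) (n : ℕ) : hm α σ n = |cm α n| * (n : ℝ) ^ (-σ) := rfl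

/-- a nonnegative completely multiplicative function with a small sum over the primes -/
lemma mass {x : ℕ →*₀ ℝ} (h0 : ∀ n, 0 ≤ x n) {S : ℝ} (hS : S ≤ 1 / 2)
    (hx : ∀ N : ℕ, ∑ p ∈ N.primesBelow, x p ≤ S) : Summable (fun n => x n) ∧ ∑' n, x n ≤ Real.exp (2 * S) := by
  have hp1 : ∀ {p : ℕ}, p.Prime → x p ≤ 1 / 2 := by
    intro p hp
    have h1 : p ∈ (p + 1).primesBelow := Nat.mem_primesBelow.2 ⟨Nat.lt_succ_self p, hp⟩
    exact (single_le_sum (f := fun p => x p) (fun i _ => h0 i) h1).trans ((hx (p + 1)).trans hS)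
  have hb : ∀ N : ℕ, ∑ i ∈ range N, x i ≤ Real.exp (2 * S) := by
    intro N
    have h1 := (EulerProduct.summable_and_hasSum_smoothNumbers_prod_primesBelow_geometric
      (f := (x : ℕ →* ℝ)) (fun {p} hp => by
        have : ((x : ℕ →* ℝ) p) = x p := rfl
        rw [this, Real.norm_eq_abs, abs_of_nonneg (h0 p)]
        linarith [hp1 hp]) N).2
    have h1' : HasSum (fun m : N.smoothNumbers => x m) (∏ p ∈ N.primesBelow, (1 - x p)⁻¹) := h1
    have h2 : HasSum (Set.indicator (N.smoothNumbers : Set ℕ) x) (∏ p ∈ N.primesBelow, (1 - x p)⁻¹) :=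
      (hasSum_subtype_iff_indicator (f := (x : ℕ → ℝ))).1 h1'
    have h3 : ∑ i ∈ range N, x i ≤ ∑ i ∈ range N, Set.indicator (N.smoothNumbers : Set ℕ) x i := by
      apply sum_le_sum
      intro i hi
      rcases Nat.eq_zero_or_pos i with hi0 | hi0
      · subst hi0
        rw [map_zero]
        exact Set.indicator_nonneg (fun n _ => h0 n) _
      · rw [Set.indicator_of_mem (Nat.mem_smoothNumbers_of_lt hi0 (mem_range.1 hi))]
    refine h3.trans ((sum_le_hasSum _ (fun i _ => Set.indicator_nonneg (fun n _ => h0 n) _) h2).trans ?_)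
    calc ∏ p ∈ N.primesBelow, (1 - x p)⁻¹ ≤ ∏ p ∈ N.primesBelow, Real.exp (2 * x p) := by
          apply Finset.prod_le_prod
          · intro p hp
            have := hp1 (Nat.prime_of_mem_primesBelow hp)
            rw [inv_nonneg]
            linarith
          · intro p hp
            have h4 := hp1 (Nat.prime_of_mem_primesBelow hp)
            have h5 := h0 p
            have h6 := Real.add_one_le_exp (2 * x p)
            rw [inv_le_iff_one_le_mul₀ (by linarith)]
            nlinarith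
      _ = Real.exp (∑ p ∈ N.primesBelow, 2 * x p) := (Real.exp_sum _ _).symm
      _ ≤ Real.exp (2 * S) := by
          apply Real.exp_le_exp.2
          rw [← mul_sum]
          linarith [hx N]
  exact ⟨summable_of_sum_range_le h0 hb, Real.tsum_le_of_sum_range_le h0 hb⟩

lemma mass_one {x : ℕ →*₀ ℝ} (h0 : ∀ n, 0 ≤ x n) {S : ℝ} (hS0 : 0 ≤ S) (hS : S ≤ 1 / 2)
    (hx : ∀ N : ℕ, ∑ p ∈ N.primesBelow, x p ≤ S) : Summable (fun n => x n) ∧
      0 ≤ ∑' n : ℕ, (if n ≤ 1 then 0 else x n) ∧ ∑' n : ℕ, (if n ≤ 1 then 0 else x n) ≤ 4 * S := by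
  obtain ⟨h1, h2⟩ := mass h0 hS hx
  refine ⟨h1, ?_, ?_⟩
  · apply tsum_nonneg
    intro n
    split_ifs
    · exact le_rfl
    · exact h0 n
  · have h3 := h1.hasSum.sub (hasSum_ite_eq 1 (1 : ℝ))
    have e : (fun n : ℕ => if n ≤ 1 then (0 : ℝ) else x n) = fun n => x n - (if n = 1 then 1 else 0) := by
      funext n
      by_cases h4 : n = 0
      · subst h4
        simp
      by_cases h5 : n = 1
      · subst h5
        simp
      · rw [if_neg (by omega), if_neg h5, sub_zero]
    rw [e, h3.tsum_eq]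
    have h4 : Real.exp (2 * S) - 1 ≤ 2 * (2 * S) := by
      have h5 : |2 * S| ≤ 1 := by rw [abs_of_nonneg (by linarith)]; linarith
      have h6 := Real.abs_exp_sub_one_le h5
      rw [abs_of_nonneg (show (0:ℝ) ≤ 2 * S by linarith)] at h6
      exact (le_abs_self _).trans h6
    linarith

/-- the complex version, with the factor `n^{-s}` -/
noncomputable def cms (α : ℕ → ℝ) (s : ℂ) : ℕ →*₀ ℂ where
  toFun n := if n = 0 then 0 else (cm α n : ℂ) * (n : ℂ) ^ (-s)
  map_zero' := by simp
  map_one' := by simp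
  map_mul' a b := by
    rcases Nat.eq_zero_or_pos a with ha | ha
    · simp [ha]
    rcases Nat.eq_zero_or_pos b with hb | hb
    · simp [hb]
    rw [if_neg (Nat.mul_pos ha hb).ne', if_neg ha.ne', if_neg hb.ne', map_mul, Nat.cast_mul,
      natCast_mul_natCast_cpow]
    push_cast
    ring

lemma cms_term (α : ℕ → ℝ) (s : ℂ) (n : ℕ) : cms α s n = LSeries.term (fun n => (cm α n : ℂ)) s n := by
  change (if n = 0 then 0 else (cm α n : ℂ) * (n : ℂ) ^ (-s)) = _
  rw [LSeries.term_def]
  split_ifs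
  · rfl
  · rw [cpow_neg, div_eq_mul_inv]

lemma cms_prime (α : ℕ → ℝ) (s : ℂ) {p : ℕ} (hp : p.Prime) : cms α s p = (α p : ℂ) * (p : ℂ) ^ (-s) := by
  change (if p = 0 then 0 else (cm α p : ℂ) * (p : ℂ) ^ (-s)) = _
  rw [if_neg hp.ne_zero, cm_prime α hp]

variable {α : ℕ → ℝ} {s : ℂ}

lemma cms_summable (hs : LSeriesSummable (fun n => (cm α n : ℂ)) s) : Summable (fun n => ‖cms α s n‖) := by
  have h1 := hs.norm
  refine h1.congr fun n => ?_
  rw [cms_term]

lemma cm_hasProd (hs : LSeriesSummable (fun n => (cm α n : ℂ)) s) :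
    HasProd (fun p : Nat.Primes => (1 - (α p : ℂ) * ((p : ℕ) : ℂ) ^ (-s))⁻¹) (LSeries (fun n => (cm α n : ℂ)) s) := by
  have h1 := EulerProduct.eulerProduct_completely_multiplicative_hasProd (cms_summable hs)
  have e1 : (fun p : Nat.Primes => (1 - cms α s p)⁻¹) = fun p : Nat.Primes => (1 - (α p : ℂ) * ((p : ℕ) : ℂ) ^ (-s))⁻¹ := by
    funext p
    rw [cms_prime α s p.2]
  have e2 : ∑' n, cms α s n = LSeries (fun n => (cm α n : ℂ)) s := tsum_congr fun n => cms_term α s n
  rw [e1, e2] at h1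
  exact h1

/-- the Euler product of `co g` -/
lemma co_hasProd {g : ℕ → ℝ} (hg : ∀ p : ℕ, p.Prime → |g p| ≤ 1) (hs : 1 < s.re) :
    HasProd (fun p : Nat.Primes => 1 + (g p : ℂ) * ((p : ℕ) : ℂ) ^ (-s)) (LSeries (co g) s) := by
  have hsum := co_summable hg hs
  obtain ⟨t, ht⟩ : ∃ t : ℕ → ℂ, t = LSeries.term (co g) s := ⟨_, rfl⟩
  have hg0 : t 0 = 0 := by rw [ht]; exact LSeries.term_zero _ _
  have hg1 : t 1 = 1 := by
    rw [ht, LSeries.term_of_ne_zero one_ne_zero, co_one]
    simp
  have hgm : ∀ {a b : ℕ}, Nat.Coprime a b → t (a * b) = t a * t b := by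
    intro a b hab
    rcases Nat.eq_zero_or_pos a with ha | ha
    · subst ha; rw [zero_mul, hg0, zero_mul]
    rcases Nat.eq_zero_or_pos b with hb | hb
    · subst hb; rw [mul_zero, hg0, mul_zero]
    rw [ht, LSeries.term_of_ne_zero (Nat.mul_pos ha hb).ne', LSeries.term_of_ne_zero ha.ne',
      LSeries.term_of_ne_zero hb.ne']
    unfold co Pool.Agent.H902R3.I469.ff
    rw [Pool.Agent.H902R3.I469.fr_mul hab]
    push_cast
    rw [Complex.natCast_mul_natCast_cpow]
    ring
  have hts : Summable (fun n => ‖t n‖) := by rw [ht]; exact hsum.norm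
  have hE := EulerProduct.eulerProduct_hasProd hg1 hgm hts hg0
  have hL : (∑' n, t n) = LSeries (co g) s := by rw [ht]; rfl
  rw [hL] at hE
  have hloc : (fun p : Nat.Primes => ∑' e : ℕ, t ((p : ℕ) ^ e)) =
      fun p : Nat.Primes => 1 + (g p : ℂ) * ((p : ℕ) : ℂ) ^ (-s) := by
    funext p
    have hp := p.2
    rw [tsum_eq_sum (s := Finset.range 2)]
    · rw [Finset.sum_range_succ, Finset.sum_range_one, pow_zero, pow_one, hg1, ht,
        LSeries.term_of_ne_zero hp.ne_zero]
      unfold co Pool.Agent.H902R3.I469.ff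
      rw [Pool.Agent.H902R3.I469.fr_prime hp, gam_cf hp, Complex.cpow_neg]
      rfl
    · intro e he
      rw [Finset.mem_range, not_lt] at he
      rw [ht, LSeries.term_of_ne_zero (pow_ne_zero _ hp.ne_zero)]
      unfold co Pool.Agent.H902R3.I469.ff
      rw [Pool.Agent.H902R3.I469.fr_prime_pow hp he]
      simp
  rw [hloc] at hE
  exact hE

/-- coefficients of the logarithm of the completely multiplicative factor -/
noncomputable def bC (α : ℕ → ℝ) (n : ℕ) : ℂ := (cm α n : ℂ) * ((Λ n : ℂ) / (Real.log n : ℂ))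

lemma bC_zero {n : ℕ} (h : ¬ IsPrimePow n) : bC α n = 0 := by
  unfold bC
  rw [ArithmeticFunction.vonMangoldt_eq_zero_iff.2 h]
  simp

lemma norm_bC_le (n : ℕ) : ‖bC α n‖ ≤ |cm α n| := by
  unfold bC
  rw [norm_mul, norm_real, Real.norm_eq_abs]
  exact mul_le_of_le_one_right (abs_nonneg _) (Pool.Agent.H902R3.PZ.norm_L_le n)

lemma bC_pow {p k : ℕ} (hp : p.Prime) : bC α (p ^ (k + 1)) = (α p : ℂ) ^ (k + 1) / ((k : ℂ) + 1) := by
  unfold bC
  have hlog : (Real.log p : ℂ) ≠ 0 := by
    have : Real.log p ≠ 0 := by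
      have := Real.log_pos (show (1 : ℝ) < p by exact_mod_cast hp.one_lt)
      exact this.ne'
    exact_mod_cast this
  rw [ArithmeticFunction.vonMangoldt_apply_pow (by omega), ArithmeticFunction.vonMangoldt_apply_prime hp, map_pow,
    cm_prime α hp]
  push_cast
  rw [Real.log_pow]
  push_cast
  have h1 : ((k : ℂ) + 1) ≠ 0 := by
    have : ((k + 1 : ℕ) : ℂ) ≠ 0 := by exact_mod_cast Nat.succ_ne_zero k
    push_cast at this
    exact this
  have hlog' : log (p : ℂ) ≠ 0 := by
    rw [← natCast_log]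
    exact hlog
  field_simp

lemma bC_summable (hs : LSeriesSummable (fun n => (cm α n : ℂ)) s) : LSeriesSummable (bC α) s := by
  refine Summable.of_norm_bounded hs.norm fun n => ?_
  rw [LSeries.norm_term_eq, LSeries.norm_term_eq]
  split_ifs
  · exact le_rfl
  · gcongr
    refine (norm_bC_le n).trans (le_of_eq ?_)
    rw [norm_real, Real.norm_eq_abs]

lemma exp_bC (hs : LSeriesSummable (fun n => (cm α n : ℂ)) s) :
    Complex.exp (LSeries (bC α) s) = LSeries (fun n => (cm α n : ℂ)) s := by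
  have hsum := bC_summable hs
  obtain ⟨g, hg⟩ : ∃ g : ℕ → ℂ, g = LSeries.term (bC α) s := ⟨_, rfl⟩
  have hgs : Summable g := by rw [hg]; exact hsum
  have hsup : Function.support g ⊆ {n | IsPrimePow n} := by
    intro n hn
    by_contra h
    apply hn
    rw [hg]
    rcases Nat.eq_zero_or_pos n with h0 | h0
    · subst h0; exact LSeries.term_zero _ _
    · rw [LSeries.term_of_ne_zero h0.ne', bC_zero (by exact h)]
      simp
  have h1 : LSeries (bC α) s = ∑' (p : Nat.Primes) (k : ℕ), g (p ^ (k + 1)) := by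
    have : LSeries (bC α) s = ∑' n, g n := by rw [hg]; rfl
    rw [this]
    exact tsum_eq_tsum_primes_of_support_subset_prime_powers hgs hsup
  have hcs := cms_summable hs
  have hlt : ∀ p : Nat.Primes, ‖(α p : ℂ) * ((p : ℕ) : ℂ) ^ (-s)‖ < 1 := by
    intro p
    have h2 := hcs.of_norm.norm_lt_one (f := (cms α s).toMonoidHom) p.2.one_lt
    have h3 : (cms α s).toMonoidHom p = (α p : ℂ) * ((p : ℕ) : ℂ) ^ (-s) := cms_prime α s p.2
    rw [h3] at h2
    exact h2
  have h2 : ∀ p : Nat.Primes, ∑' k : ℕ, g ((p : ℕ) ^ (k + 1)) = -log (1 - cms α s p) := by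
    intro p
    rw [cms_prime α s p.2, ← (hasSum_taylorSeries_neg_log' (hlt p)).tsum_eq]
    apply tsum_congr
    intro k
    rw [hg, LSeries.term_of_ne_zero (pow_ne_zero _ p.2.ne_zero), bC_pow p.2]
    have e : (((p : ℕ) ^ (k + 1) : ℕ) : ℂ) ^ s = (((p : ℕ) : ℂ) ^ s) ^ (k + 1) := by
      push_cast
      rw [← cpow_nat_mul, ← natCast_cpow_natCast_mul]
    rw [e, cpow_neg, mul_pow, inv_pow]
    field_simp
  rw [h1]
  simp_rw [h2]
  rw [EulerProduct.exp_tsum_primes_log_eq_tsum hcs]
  exact tsum_congr fun n => cms_term α s n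

end Pool.Agent.Q286.SA
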